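import Pool.Agent.H.MP_800496_gt.Defs
import Pool.Agent.H.MP_800496_gt.Calc

set_option autoImplicit false

/-!
# The kernel of `R[t] → S_{4,∞}(S³; R)` is bigger than the conjectured ideal

The definitions are in `Pool.Agent.H.MP_800496_gt.Defs`.  The new relation comes from the diagram with five
crossings of the trivial link of two components, which is the trace closure of the 2-tangle `W σ W`, where `W` is
the full twist `σ²` turned by 90 degrees: it can be evaluated by the skein relation, and it can be untied.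
-/

namespace Pool.Agent.Results.MP_800496_gt.ThirdRelation

open Polynomial Pool.Agent.H.MP_800496_gt Pool.Agent.H.MP_800496_gt.Piece

/-- A check of the definitions: for `y = -(2x + 2)` the trivial knot is not zero in the skein module, since
the function with the value `1` on all links satisfies all relations.  (Here the factor `q` of the main
result vanishes.) -/
theorem trivialKnot_ne_zero (R : Type*) [CommRing R] [Nontrivial R] (x : R) :
    trivialLinks (1 : R) 1 x x 1 (-(2 * x + 2)) X ≠ 0 := by
  intro h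
  have hle : relSubmodule (1 : R) 1 x x 1 (-(2 * x + 2)) ≤
      LinearMap.ker (Finsupp.linearCombination R (fun _ : FramedLink => (1 : R))) := by
    rw [relSubmodule, Submodule.span_le]
    rintro z (⟨u, v, i, L₀, L₁, L₂, L₃, Linf, -, -, -, -, -, rfl⟩ | ⟨u, v, i, L, L', -, -, rfl⟩)
    · simp only [SetLike.mem_coe, LinearMap.mem_ker, map_add, Finsupp.linearCombination_single,
        smul_eq_mul, mul_one]
      ring
    · simp only [SetLike.mem_coe, LinearMap.mem_ker, map_sub, Finsupp.linearCombination_single,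
        smul_eq_mul, mul_one, sub_self]
  have hX : trivialLinks (1 : R) 1 x x 1 (-(2 * x + 2)) X =
      (relSubmodule (1 : R) 1 x x 1 (-(2 * x + 2))).mkQ (Finsupp.single (trivialLink 1) 1) := by
    rw [trivialLinks, lsum_apply, ← monomial_one_one_eq_X, sum_monomial_index]
    · rw [LinearMap.toSpanSingleton_apply, one_smul]
    · simp
  rw [hX, Submodule.mkQ_apply, Submodule.Quotient.mk_eq_zero] at h
  have h1 := hle h
  simp [LinearMap.mem_ker, Finsupp.linearCombination_single] at h1

/-- **Main result.**  Let `R` be a commutative ring, `x ∈ R` and `y ∈ R` invertible, and take the parameters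
`a = b₀ = b₃ = 1`, `b₁ = b₂ = x`, `b_∞ = y`.  Put `q = (y + 2x + 2)(y - 2x + 2)(y - x - 1)`.  If `q ≠ 0`
(for instance `R = 𝔽₂`, `x = y = 1`), then the polynomial `q t` is not in the ideal generated by `t p₁(t)`
and `t p₂(t)`, but it is mapped to `0` in the skein module. -/
theorem result (R : Type*) [CommRing R] (x : R) (y : Rˣ)
    (hq : ((y : R) + 2 * x + 2) * (y - 2 * x + 2) * (y - x - 1) ≠ 0) :
    C (((y : R) + 2 * x + 2) * (y - 2 * x + 2) * (y - x - 1)) * X ∉
        conjIdeal (1 : Rˣ) 1 x x 1 (y : R) ∧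
      trivialLinks (1 : R) 1 x x 1 (y : R)
        (C (((y : R) + 2 * x + 2) * (y - 2 * x + 2) * (y - x - 1)) * X) = 0 := by
  constructor
  · intro hmem
    apply hq
    generalize ((y : R) + 2 * x + 2) * (y - 2 * x + 2) * (y - x - 1) = q at hmem
    have hp2 : p₂ (1 : Rˣ) 1 x x 1 (y : R) = 0 := by
      simp [p₂]
    rw [conjIdeal, hp2, mul_zero, Ideal.mem_span_pair] at hmem
    obtain ⟨g, g', hg⟩ := hmem
    have hg1 : g * p₁ (1 : Rˣ) 1 x x 1 (y : R) = C q := by
      have h1 : X * (g * p₁ (1 : Rˣ) 1 x x 1 (y : R)) = X * C q := by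
        linear_combination hg
      ext n
      have := congrArg (fun f => f.coeff (n + 1)) h1
      simpa [coeff_X_mul] using this
    by_contra hq0
    have hg0 : g ≠ 0 := by
      rintro rfl
      rw [zero_mul] at hg1
      exact hq0 (C_eq_zero.1 hg1.symm)
    have : Nontrivial R := ⟨⟨q, 0, hq0⟩⟩
    have hlin : p₁ (1 : Rˣ) 1 x x 1 (y : R) = C (y : R) * X + C (1 + x + x + 1) := by
      simp [p₁]
      ring
    have hdeg : (p₁ (1 : Rˣ) 1 x x 1 (y : R)).natDegree = 1 := by
      rw [hlin]
      exact natDegree_linear y.ne_zero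
    have hlc : (p₁ (1 : Rˣ) 1 x x 1 (y : R)).leadingCoeff = y := by
      rw [hlin]
      exact leadingCoeff_linear y.ne_zero
    have hmul : g.leadingCoeff * (p₁ (1 : Rˣ) 1 x x 1 (y : R)).leadingCoeff ≠ 0 := by
      rw [hlc]
      intro h
      exact hg0 (leadingCoeff_eq_zero.1 ((Units.mul_left_eq_zero y).1 h))
    have hnat := natDegree_mul' hmul
    rw [hg1, natDegree_C, hdeg] at hnat
    omega
  · have h := third_relation (R := R) (x := x) (y := (y : R))
    rw [← smul_eq_C_mul, map_smul]
    have hX : trivialLinks (1 : R) 1 x x 1 (y : R) X = val x (y : R) [(cup, 0), (cap, 0)] := by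
      rw [val_of x (y : R) (w := [(cup, 0), (cap, 0)]) rfl, trivialLinks, lsum_apply, ← monomial_one_one_eq_X,
        sum_monomial_index]
      · rw [LinearMap.toSpanSingleton_apply, one_smul]
        rfl
      · simp
    rw [hX]
    exact h

/-- The question of the problem file has a negative answer. -/
theorem not_conjecture :
    ¬ ∀ (R : Type) [CommRing R] (a b₀ b₃ binf : Rˣ) (b₁ b₂ : R),
      Function.Surjective (trivialLinks (a : R) b₀ b₁ b₂ b₃ binf) ∧
      ∀ f : R[X], trivialLinks (a : R) b₀ b₁ b₂ b₃ binf f = 0 ↔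
        f ∈ conjIdeal a (b₀ : R) b₁ b₂ b₃ binf := by
  intro h
  have h1 := (h (ZMod 2) 1 1 1 1 1 1).2
    (C ((((1 : (ZMod 2)ˣ) : ZMod 2) + 2 * 1 + 2) * (((1 : (ZMod 2)ˣ) : ZMod 2) - 2 * 1 + 2) *
      (((1 : (ZMod 2)ˣ) : ZMod 2) - 1 - 1)) * X)
  have h2 := result (ZMod 2) 1 1 (by decide)
  simp only [Units.val_one] at h1 h2
  exact h2.1 (h1.1 h2.2)

end Pool.Agent.Results.MP_800496_gt.ThirdRelation
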